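import Mathlib
import Pool.Agent.H60.TMFib

namespace Pool.Agent.Results.MP_36a07b_nt.Q1

open Pool.Agent.H60.TMFib

/-- `h_{2^{2n} - 3}` divides `h_{2 (2^{2n} - 3)}` for every `n ≥ 1`. -/
theorem result : ∀ n : ℕ, 1 ≤ n → h (2 ^ (2 * n) - 3) ∣ h (2 * (2 ^ (2 * n) - 3)) := by
  intro n hn
  obtain ⟨m, rfl⟩ := Nat.exists_eq_add_of_le' hn
  obtain ⟨a, b, c, -, h2, h3⟩ := key (2 * m)
  rw [show 2 * (m + 1) = 2 * m + 2 by ring, h2, h3, Even.neg_one_pow (even_two_mul m)]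
  exact ⟨a - c, by ring⟩

end Pool.Agent.Results.MP_36a07b_nt.Q1
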