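import Mathlib
import Pool.Agent.H60.TMFib

namespace Pool.Agent.Results.MP_36a07b_nt.Q2

open Pool.Agent.H60.TMFib

/-- `h_{2 (2^k - 3)} ≡ -2` modulo `h_{2^k - 3}` for every odd `k ≥ 3`. -/
theorem result : ∀ k : ℕ, Odd k → 3 ≤ k → h (2 ^ k - 3) ∣ h (2 * (2 ^ k - 3)) - (-2) := by
  intro k hk h3
  obtain ⟨m, rfl⟩ : ∃ m, k = 2 * m + 1 + 2 := by
    obtain ⟨j, rfl⟩ := hk
    exact ⟨j - 1, by omega⟩
  obtain ⟨a, b, c, h1, h2, h3⟩ := key (2 * m + 1)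
  rw [Odd.neg_one_pow ⟨m, rfl⟩] at h1 h2 h3
  rw [h2, h3]
  exact ⟨c - a, by linear_combination (-2) * h1⟩

end Pool.Agent.Results.MP_36a07b_nt.Q2
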